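import Mathlib

namespace Pool.Agent.Results.MP_9704e3_al.InfiniteWidth

open Equiv

/-- The underlying map of the horizontal class transposition `τ_{i(k),j(k)}`: it sends
`n ≡ i (mod k)` to `n + (j - i)`, sends `n ≡ j (mod k)` to `n - (j - i)` and fixes every other
integer. -/
def classMap (k i j : ℤ) (n : ℤ) : ℤ :=
  if n % k = i then n + (j - i) else if n % k = j then n - (j - i) else n

theorem classMap_classMap {k i j : ℤ} (hi : 0 ≤ i) (hij : i < j) (hjk : j < k) (n : ℤ) :
    classMap k i j (classMap k i j n) = n := by
  have hk : 0 < k := by omega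
  unfold classMap
  by_cases h1 : n % k = i
  · have h2 : (n + (j - i)) % k = j := by
      have : n + (j - i) = j + k * (n / k) := by
        have := Int.emod_add_mul_ediv n k
        linarith
      rw [this, Int.add_mul_emod_self_left]
      exact Int.emod_eq_of_lt (by omega) hjk
    rw [if_pos h1, h2, if_neg (by omega), if_pos rfl]
    ring
  · by_cases h3 : n % k = j
    · have h2 : (n - (j - i)) % k = i := by
        have : n - (j - i) = i + k * (n / k) := by
          have := Int.emod_add_mul_ediv n k
          linarith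
        rw [this, Int.add_mul_emod_self_left]
        exact Int.emod_eq_of_lt (by omega) (by omega)
      rw [if_neg h1, if_pos h3, h2, if_pos rfl]
      ring
    · rw [if_neg h1, if_neg h3, if_neg h1, if_neg h3]

/-- The set `H` of all horizontal class transpositions `τ_{i(k),j(k)}`, over all `k ≥ 2` and all
residues `0 ≤ i < j ≤ k - 1`, as permutations of `ℤ`. -/
def H : Set (Perm ℤ) :=
  {σ | ∃ k i j : ℤ, 2 ≤ k ∧ 0 ≤ i ∧ i < j ∧ j ≤ k - 1 ∧ ∀ n : ℤ, σ n =
    if n % k = i then n + (j - i) else if n % k = j then n - (j - i) else n}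

/-- The group `CT_∞` generated by all horizontal class transpositions. -/
def CTinf : Subgroup (Perm ℤ) := Subgroup.closure H

/-- The class transposition as a permutation. -/
def tau (k i j : ℤ) (hi : 0 ≤ i) (hij : i < j) (hjk : j < k) : Perm ℤ where
  toFun := classMap k i j
  invFun := classMap k i j
  left_inv := classMap_classMap hi hij hjk
  right_inv := classMap_classMap hi hij hjk

theorem tau_mem_H {k i j : ℤ} (hi : 0 ≤ i) (hij : i < j) (hjk : j < k) :
    tau k i j hi hij hjk ∈ H :=
  ⟨k, i, j, by omega, hi, hij, by omega, fun _ => rfl⟩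

/-- The displacements of a product of `l.length` horizontal class transpositions lie in a set of
at most `3 ^ l.length` integers. -/
theorem disp_finset (l : List (Perm ℤ)) (hl : ∀ σ ∈ l, σ ∈ H) :
    ∃ D : Finset ℤ, D.card ≤ 3 ^ l.length ∧ ∀ n : ℤ, l.prod n - n ∈ D := by
  induction l with
  | nil => exact ⟨{0}, by simp, fun n => by simp⟩
  | cons σ l ih =>
    obtain ⟨D, hD, hD'⟩ := ih (fun τ hτ => hl τ (List.mem_cons_of_mem _ hτ))
    obtain ⟨k, i, j, -, -, -, -, hσ⟩ := hl σ List.mem_cons_self
    refine ⟨Finset.image₂ (fun a b => a + b) D {j - i, -(j - i), 0}, ?_, ?_⟩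
    · refine (Finset.card_image₂_le _ _ _).trans ?_
      have h3 : (({j - i, -(j - i), 0} : Finset ℤ)).card ≤ 3 := Finset.card_le_three
      calc D.card * (({j - i, -(j - i), 0} : Finset ℤ)).card
          ≤ 3 ^ l.length * 3 := Nat.mul_le_mul hD h3
        _ = 3 ^ (σ :: l).length := by simp [pow_succ]
    · intro n
      rw [Finset.mem_image₂]
      refine ⟨l.prod n - n, hD' n, σ (l.prod n) - l.prod n, ?_, ?_⟩
      · rw [hσ]
        simp only [Finset.mem_insert, Finset.mem_singleton]
        split_ifs
        · left; ring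
        · right; left; ring
        · right; right; ring
      · simp only [List.prod_cons, Perm.coe_mul, Function.comp_apply]
        ring

/-- The block reversal `q N + r ↦ q N + (N - 1 - r)`, `0 ≤ r < N`, as a permutation of `ℤ`. -/
def revMap (N : ℤ) (n : ℤ) : ℤ := n + (N - 1 - 2 * (n % N))

theorem rev_upto (N : ℕ) (hN : 2 ≤ N) (m : ℕ) (hm : 2 * m ≤ N) :
    ∃ σ ∈ CTinf, ∀ n : ℤ, σ n =
      if (n % N < m ∨ N - 1 - n % N < m) then revMap N n else n := by
  induction m with
  | zero =>
    refine ⟨1, one_mem _, fun n => ?_⟩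
    have h1 := Int.emod_nonneg n (by omega : (N : ℤ) ≠ 0)
    have h2 := Int.emod_lt_of_pos n (by omega : (0 : ℤ) < N)
    rw [if_neg (by push_cast; omega)]
    rfl
  | succ m ih =>
    obtain ⟨σ, hσ, hσ'⟩ := ih (by omega)
    by_cases hlt : (m : ℤ) < N - 1 - m
    · refine ⟨tau N m (N - 1 - m) (by omega) hlt (by omega) * σ,
        mul_mem (Subgroup.subset_closure (tau_mem_H _ _ _)) hσ, fun n => ?_⟩
      have h1 := Int.emod_nonneg n (by omega : (N : ℤ) ≠ 0)
      have h2 := Int.emod_lt_of_pos n (by omega : (0 : ℤ) < N)
      have hrev : revMap N n % N = N - 1 - n % N := by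
        have : revMap N n = (N - 1 - n % N) + N * (n / N) := by
          have := Int.emod_add_mul_ediv n N
          unfold revMap
          linarith
        rw [this, Int.add_mul_emod_self_left]
        exact Int.emod_eq_of_lt (by omega) (by omega)
      rw [Perm.mul_apply, hσ']
      change classMap N m (N - 1 - m) _ = _
      unfold classMap
      by_cases hc : n % N < m ∨ N - 1 - n % N < m
      · rw [if_pos hc, hrev, if_neg (by omega), if_neg (by omega), if_pos (by push_cast; omega)]
      · rw [if_neg hc]
        by_cases h3 : n % N = m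
        · rw [if_pos h3, if_pos (by push_cast; omega)]
          unfold revMap; rw [h3]; ring
        · rw [if_neg h3]
          by_cases h4 : n % N = N - 1 - m
          · rw [if_pos h4, if_pos (by push_cast; omega)]
            unfold revMap; rw [h4]; ring
          · rw [if_neg h4, if_neg (by push_cast; omega)]
    · exfalso; omega

/-- **The group `CT_∞` does not have finite width** with respect to the set of horizontal class
transpositions: for every `n` there is an element of `CT_∞` that is not a product of at most `n`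
horizontal class transpositions. -/
theorem result : ∀ n : ℕ, ∃ g ∈ CTinf, ∀ l : List (Perm ℤ),
    (∀ σ ∈ l, σ ∈ H) → l.length ≤ n → l.prod ≠ g := by
  intro n
  obtain ⟨m, hm⟩ : ∃ m : ℕ, 3 ^ n < m := ⟨3 ^ n + 1, Nat.lt_succ_self _⟩
  have hm1 : 1 ≤ m := Nat.lt_of_le_of_lt (Nat.zero_le _) hm
  obtain ⟨g, hg, hg'⟩ := rev_upto (2 * m) (by omega) m le_rfl
  refine ⟨g, hg, fun l hl hln hprod => ?_⟩
  obtain ⟨D, hD, hD'⟩ := disp_finset l hl
  have hle : D.card ≤ 3 ^ n := hD.trans (Nat.pow_le_pow_right (by norm_num) hln)
  have hsub : (Finset.range m).image (fun r : ℕ => (2 * m - 1 - 2 * r : ℤ)) ⊆ D := by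
    intro x hx
    simp only [Finset.mem_image, Finset.mem_range] at hx
    obtain ⟨r, hr, rfl⟩ := hx
    have h := hD' (r : ℤ)
    rw [hprod, hg'] at h
    have hmod : (r : ℤ) % ((2 * m : ℕ) : ℤ) = r :=
      Int.emod_eq_of_lt (by omega) (by push_cast; omega)
    rw [hmod, if_pos (by left; exact_mod_cast hr)] at h
    unfold revMap at h
    rw [hmod] at h
    convert h using 1
    push_cast
    ring
  have hcard := Finset.card_le_card hsub
  rw [Finset.card_image_of_injective _ (by intro a b hab; simp only at hab; omega),
    Finset.card_range] at hcard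
  omega

end Pool.Agent.Results.MP_9704e3_al.InfiniteWidth
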